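import Pool.Agent.Q185.CD.LimY

/-! # Short chords after random crystallization of chord diagrams

The diagrams, bubbles, bridges, the crystallization process (a Markov chain with an explicit
transition matrix, stopped at crystallized diagrams), `probX n A = P(T < ∞, X_n ∈ A)` and
`probY n A = P(Y_n ∈ A)` are defined in `Pool.Agent.Q185.CD.Defs`.

The conjecture that `X_n` has the same asymptotic distribution as `Y_n` is false: `X_n > sqrt n / 10`
with probability tending to `1`, while `Y_n = o(sqrt n)` in probability. -/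

namespace Pool.Agent.Results.MP_9a6fac_co.NotCrystallizedLaw

open Finset Filter ProbabilityTheory MeasureTheory
open Pool.Agent.Q185 Pool.Agent.Q185.CD
open scoped Classical Topology

/-- The distribution function of the standard normal law. -/
noncomputable def Phi (x : ℝ) : ℝ := (gaussianReal 0 1 (Set.Iic x)).toReal

theorem Phi_pos (x : ℝ) : 0 < Phi x := by
  unfold Phi
  apply ENNReal.toReal_pos
  · intro h
    have := gaussianReal_absolutelyContinuous' 0 (v := 1) one_ne_zero h
    simp at this
  · exact measure_ne_top _ _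

theorem Phi_lt_one (x : ℝ) : Phi x < 1 := by
  unfold Phi
  have h1 : (gaussianReal 0 1 (Set.Ioi x)) ≠ 0 := by
    intro h
    have := gaussianReal_absolutelyContinuous' 0 (v := 1) one_ne_zero h
    simp at this
  have h2 : (gaussianReal 0 1 (Set.Iic x)) + (gaussianReal 0 1 (Set.Ioi x)) = 1 := by
    have := prob_add_prob_compl (μ := gaussianReal 0 1) (measurableSet_Iic (a := x))
    rwa [Set.compl_Iic] at this
  have h3 : (gaussianReal 0 1 (Set.Iic x)) < 1 := by
    rw [← h2]
    exact ENNReal.lt_add_right (measure_ne_top _ _) h1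
  have h4 := (ENNReal.toReal_lt_toReal (measure_ne_top _ _) ENNReal.one_ne_top).mpr h3
  simpa using h4

theorem trans_nonneg (n : ℕ) (M M' : Diag n) : 0 ≤ CD.trans n M M' := by
  unfold CD.trans
  split_ifs
  · exact zero_le_one
  · exact le_rfl
  · apply div_nonneg _ (Nat.cast_nonneg _)
    apply sum_nonneg
    intro i _
    apply div_nonneg _ (Nat.cast_nonneg _)
    apply sum_nonneg
    intro j _
    split_ifs <;> norm_num

theorem pow_nonneg' (n t : ℕ) : ∀ M M' : Diag n, 0 ≤ (CD.trans n ^ t) M M' := by
  induction t with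
  | zero =>
    intro M M'
    rw [pow_zero, Matrix.one_apply]
    split_ifs <;> norm_num
  | succ t ih =>
    intro M M'
    rw [pow_succ, Matrix.mul_apply]
    exact sum_nonneg (fun M'' _ => mul_nonneg (ih _ _) (trans_nonneg _ _ _))

theorem lawX_mono (n t : ℕ) {A B : Set ℕ} (h : A ⊆ B) : lawX n t A ≤ lawX n t B := by
  unfold lawX
  apply div_le_div_of_nonneg_right _ (Nat.cast_nonneg _)
  apply sum_le_sum
  intro M _
  apply sum_le_sum_of_subset_of_nonneg
  · intro M' hM'
    simp only [mem_filter, mem_univ, true_and] at hM' ⊢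
    exact ⟨hM'.1, h hM'.2⟩
  · intro _ _ _; exact pow_nonneg' _ _ _ _

theorem lawX_nonneg' (n t : ℕ) (A : Set ℕ) : 0 ≤ lawX n t A := by
  unfold lawX
  apply div_nonneg _ (Nat.cast_nonneg _)
  exact sum_nonneg (fun M _ => sum_nonneg (fun M' _ => pow_nonneg' _ _ _ _))

/-- **Short chords after random crystallization.**
(1) `P(X_n ≤ sqrt n / 10) → 0`; (2) `P(Y_n ≥ ε sqrt n) → 0` for every `ε > 0`;
(3) if `(Y_n - a_n)/b_n` converges in distribution to the standard normal law, then
`P((X_n - a_n)/b_n ≤ x) → 0` for every real `x`, so that `(X_n - a_n)/b_n` does not converge in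
distribution to the standard normal law. -/
theorem result :
    Tendsto (fun n : ℕ => probX n {j | (j : ℝ) ≤ Real.sqrt n / 10}) atTop (𝓝 0) ∧
    (∀ ε : ℝ, 0 < ε →
      Tendsto (fun n : ℕ => probY n {j | ε * Real.sqrt n ≤ j}) atTop (𝓝 0)) ∧
    (∀ a b : ℕ → ℝ, (∀ n, 0 < b n) →
      (∀ x : ℝ, Tendsto (fun n : ℕ => probY n {j | ((j : ℝ) - a n) / b n ≤ x}) atTop
        (𝓝 (Phi x))) →
      (∀ x : ℝ, Tendsto (fun n : ℕ => probX n {j | ((j : ℝ) - a n) / b n ≤ x}) atTop (𝓝 0)) ∧
      ¬ ∀ x : ℝ, Tendsto (fun n : ℕ => probX n {j | ((j : ℝ) - a n) / b n ≤ x}) atTop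
        (𝓝 (Phi x))) := by
  refine ⟨tendsto_probX, fun ε hε => tendsto_probY hε, ?_⟩
  intro a b hb hY
  have main : ∀ x : ℝ, Tendsto (fun n : ℕ => probX n {j | ((j : ℝ) - a n) / b n ≤ x}) atTop
      (𝓝 0) := by
    intro x
    have hx0 : 0 ≤ |x| := abs_nonneg x
    -- the lower tail of `Y`
    have h1 : ∀ᶠ n : ℕ in atTop, b n * (|x| + 1) ≤ a n ∧ probY n Set.univ = 1 := by
      have h2 := (hY (-(|x| + 1))).eventually (lt_mem_nhds (Phi_pos (-(|x| + 1))))
      filter_upwards [h2] with n hn
      have h3 : (univ.filter (fun M : Diag n => Crys M ∧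
          numShort M ∈ {j : ℕ | ((j : ℝ) - a n) / b n ≤ -(|x| + 1)})).Nonempty := by
        rw [nonempty_iff_ne_empty]
        intro h
        unfold probY at hn
        rw [h] at hn
        simp at hn
      obtain ⟨M, hM⟩ := h3
      simp only [mem_filter, mem_univ, true_and, Set.mem_ofPred_eq] at hM
      constructor
      · have h4 := hM.2
        rw [div_le_iff₀ (hb n)] at h4
        have h5 : (0 : ℝ) ≤ numShort M := Nat.cast_nonneg _
        linarith
      · exact probY_univ n ⟨M, hM.1⟩
    have h2 : ∀ᶠ n : ℕ in atTop, a n < (1 / 20) * Real.sqrt n := by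
      have h3 := (hY 0).eventually (gt_mem_nhds
        (show Phi 0 < (1 + Phi 0) / 2 by have := Phi_lt_one 0; linarith))
      have h4 := (tendsto_probY (ε := 1 / 20) (by norm_num)).eventually (gt_mem_nhds
        (show (0 : ℝ) < (1 - Phi 0) / 2 by have := Phi_lt_one 0; linarith))
      filter_upwards [h1, h3, h4] with n hn1 hn3 hn4
      by_contra hc
      push Not at hc
      have h5 : probY n Set.univ ≤ probY n {j | ((j : ℝ) - a n) / b n ≤ 0} +
          probY n {j | (1 / 20) * Real.sqrt n ≤ j} := by
        apply probY_union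
        intro j _
        rw [Set.mem_union, Set.mem_ofPred_eq, Set.mem_ofPred_eq]
        by_cases h6 : (j : ℝ) ≤ a n
        · left
          apply div_nonpos_of_nonpos_of_nonneg (by linarith) (hb n).le
        · right
          linarith
      rw [hn1.2] at h5
      linarith
    have h3 : Tendsto (fun n : ℕ => Real.exp (-(9 / 10) * Real.sqrt n)) atTop (𝓝 0) := by
      apply Real.tendsto_exp_atBot.comp
      apply Tendsto.const_mul_atTop_of_neg (by norm_num)
      exact Real.tendsto_sqrt_atTop.comp tendsto_natCast_atTop_atTop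
    refine squeeze_zero' (Eventually.of_forall
      (fun n => Real.iSup_nonneg (fun t => lawX_nonneg' n t _))) ?_ h3
    filter_upwards [h1, h2, eventually_ge_atTop 100] with n hn1 hn2 hn3
    apply ciSup_le
    intro t
    refine (lawX_mono n t ?_).trans (lawX_small n t hn3)
    intro j hj
    simp only [Set.mem_ofPred_eq] at hj ⊢
    rw [div_le_iff₀ (hb n)] at hj
    have h5 : x * b n ≤ |x| * b n := mul_le_mul_of_nonneg_right (le_abs_self x) (hb n).le
    have h6 := hn1.1
    have h7 := hb n
    nlinarith
  refine ⟨main, fun hc => ?_⟩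
  have := tendsto_nhds_unique (main 0) (hc 0)
  exact (Phi_pos 0).ne this

end Pool.Agent.Results.MP_9a6fac_co.NotCrystallizedLaw
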